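import Pool.Agent.W135.KZ.TypA

/-! Project KZ, part TYP. -/

set_option autoImplicit false

open Finset MeasureTheory ProbabilityTheory Filter Topology
open Pool.Agent.W325.KZ

namespace Pool.Agent.W135.KZ

/-- stability on `[-r,r]`: from `f` without small critical values to a small perturbation -/
theorem stab (hT : S_STAB) {f h : ℝ → ℝ} {r u : ℝ} {T : ℕ} (r0 : 0 < r) (r1 : r < 1)
    (hf : ContDiff ℝ 1 f) (hh : Continuous h)
    (hcr : ∀ x : ℝ, |x| ≤ 1 → deriv f x = 0 → u < |f x|)
    (hd : ∀ x : ℝ, |x| ≤ r → |h x - f x| < u)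
    (hz : Zr f (Set.Icc (-r) r) T) : Zr h (Set.Icc (-r) r) (T - 2) := by
  have h1 := hT f (fun x => h x - f x) (-r) r T (by linarith) hf
    ((hh.sub hf.continuous).continuousOn) (fun x hx hdx => by
      have hxr : |x| ≤ r := abs_le.2 ⟨hx.1, hx.2⟩
      exact (hd x hxr).trans (hcr x (hxr.trans r1.le) hdx)) hz
  have e : (fun x => f x + (h x - f x)) = h := by funext x; ring
  rwa [e] at h1

theorem not_cr {a : ℕ → ℝ} {n : ℕ} {u : ℝ} (h : ¬ Cr a n 1 u) :
    ∀ x : ℝ, |x| ≤ 1 → deriv (pol a n) x = 0 → u < |pol a n x| := by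
  intro x hx hdx
  by_contra hcon
  exact h ⟨x, by linarith [abs_nonneg x], hx, hdx, not_lt.1 hcon⟩

theorem pol_cont (a : ℕ → ℝ) (m : ℕ) : Continuous (pol a m) := (pol_contDiff a m).continuous

/-- inner and outer zeros together -/
theorem combine {a : ℕ → ℝ} {m : ℕ} {r : ℝ} {k1 k2 : ℕ} (r0 : 0 < r) (r1 : r < 1)
    (h1 : Zr (pol a m) (Set.Icc (-r) r) k1) (h2 : Zr (pol (rv a m) m) (Set.Icc (-r) r) k2) :
    Zr (pol a m) Set.univ (k1 + (k2 - 1)) := by
  obtain ⟨S1, hS1, hS1'⟩ := h1
  obtain ⟨S2, hS2, hS2'⟩ := h2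
  set S3 : Finset ℝ := (S2.erase 0).image (fun y => y⁻¹) with hS3
  have hc3 : S3.card = (S2.erase 0).card := by
    apply card_image_of_injective
    exact inv_injective
  have hc4 : k2 - 1 ≤ S3.card := by
    rw [hc3]
    have := pred_card_le_card_erase (s := S2) (a := (0 : ℝ))
    omega
  have hdisj : Disjoint S1 S3 := by
    rw [Finset.disjoint_left]
    intro x hx hx3
    obtain ⟨y, hy, rfl⟩ := mem_image.1 hx3
    obtain ⟨hy0, hy2⟩ := mem_erase.1 hy
    have h3 := (hS2' y hy2).1
    have h4 := (hS1' _ hx).1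
    have h5 : |y| ≤ r := abs_le.2 ⟨h3.1, h3.2⟩
    have h6 : |y⁻¹| ≤ r := abs_le.2 ⟨h4.1, h4.2⟩
    rw [abs_inv] at h6
    have h7 : 0 < |y| := abs_pos.2 hy0
    have h8 : 1 ≤ |y|⁻¹ := (one_le_inv₀ h7).2 (h5.trans r1.le)
    linarith
  refine ⟨S1 ∪ S3, ?_, ?_⟩
  · rw [card_union_of_disjoint hdisj]
    omega
  · intro x hx
    refine ⟨Set.mem_univ _, ?_⟩
    rcases mem_union.1 hx with hx | hx
    · exact (hS1' x hx).2
    · obtain ⟨y, hy, rfl⟩ := mem_image.1 hx
      obtain ⟨hy0, hy2⟩ := mem_erase.1 hy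
      have h3 := (hS2' y hy2).2
      rw [pol_rv a m y hy0] at h3
      exact (mul_eq_zero.1 h3).resolve_left (pow_ne_zero _ hy0)

theorem typ (hC : S_CV) (hT : S_STAB) (hI : S_INJ) (hN : S_IND) (hM : S_MEAS) (hR : S_ROOT)
    (_hP : S_SPLB) : S_TYP := by
  intro hHP η hη ε hε
  obtain ⟨C, hC0, hC⟩ := hC
  obtain ⟨Q, hQ2, hQ⟩ := tail
  obtain ⟨n0, hn0⟩ := hHP (η / 16) (by positivity) (ε ^ 2 / 8) (by positivity)
  -- the choice of `q₀`
  have hl1 : Tendsto (fun q : ℕ => zz / (q : ℝ) ^ 2) atTop (𝓝 0) := by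
    apply Tendsto.const_div_atTop
    exact (tendsto_pow_atTop (by norm_num)).comp tendsto_natCast_atTop_atTop
  have hl2 : Tendsto (fun q : ℕ => C * Real.sqrt (1 / (q : ℝ))) atTop (𝓝 0) := by
    have h1 : Tendsto (fun q : ℕ => 1 / (q : ℝ)) atTop (𝓝 0) := tendsto_one_div_atTop_nhds_zero_nat
    have h2 := (Real.continuous_sqrt.tendsto 0).comp h1
    rw [Real.sqrt_zero] at h2
    simpa using h2.const_mul C
  have hl3 : Tendsto (fun q : ℕ => η * Real.log (q : ℝ)) atTop atTop :=
    (Real.tendsto_log_atTop.comp tendsto_natCast_atTop_atTop).const_mul_atTop hη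
  obtain ⟨Q1, hQ1⟩ := ((hl1.eventually_lt_const (show (0:ℝ) < min (ε / 8) (ε ^ 2 / 32) by
    positivity)).and ((hl2.eventually_lt_const (show (0:ℝ) < ε / 8 by positivity)).and
      (hl3.eventually_gt_atTop (9 + (2 / Real.pi + η / 16) * Real.log 2)))).exists_forall_of_atTop
  refine ⟨max (max Q Q1) (max 2 n0), ?_⟩
  intro q hq n T hn hTq
  have hqQ : Q ≤ q := (le_max_left _ _).trans ((le_max_left _ _).trans hq)
  have hqQ1 : Q1 ≤ q := (le_max_right _ _).trans ((le_max_left _ _).trans hq)
  have hq2 : 2 ≤ q := (le_max_left _ _).trans ((le_max_right _ _).trans hq)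
  have hqn0 : n0 ≤ q := (le_max_right _ _).trans ((le_max_right _ _).trans hq)
  have hqR : (2 : ℝ) ≤ q := by exact_mod_cast hq2
  have hqp : (0 : ℝ) < q := by linarith
  obtain ⟨b1, b2, b3⟩ := hQ1 q hqQ1
  have b1a : zz / (q : ℝ) ^ 2 < ε / 8 := b1.trans_le (min_le_left _ _)
  have b1b : zz / (q : ℝ) ^ 2 < ε ^ 2 / 32 := b1.trans_le (min_le_right _ _)
  obtain ⟨r0, r1, hr⟩ := rr_facts hq2
  set r := rr q with hrdef
  set u : ℝ := 1 / (q : ℝ) with hu
  have hu0 : 0 < u := by positivity
  set m' := q ^ 16 with hm'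
  have hm'2 : 2 ≤ m' := by
    calc 2 ≤ q := hq2
      _ = q ^ 1 := (pow_one q).symm
      _ ≤ q ^ 16 := Nat.pow_le_pow_right (by omega) (by norm_num)
  have hqm' : q ≤ m' := by
    calc q = q ^ 1 := (pow_one q).symm
      _ ≤ q ^ 16 := Nat.pow_le_pow_right (by omega) (by norm_num)
  have hm'n : m' ≤ n := by
    refine le_trans ?_ hn
    exact Nat.pow_le_pow_right (by omega) (by norm_num)
  set m := 2 * m' with hm
  -- critical values
  have hCV : ∀ D : ℕ, 2 ≤ D → ga {a | Cr a D 1 u} ≤ ENNReal.ofReal (ε / 8) := by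
    intro D hD
    have hD' : (2 : ℝ) ≤ D := by exact_mod_cast hD
    refine (hC D 1 u hD (by rw [div_le_one (by linarith)]; linarith) le_rfl hu0.le).trans ?_
    apply ENNReal.ofReal_le_ofReal
    rw [Real.sqrt_one, mul_one]
    exact b2.le
  -- the events
  set A1 : Set (ℕ → ℝ) := {a | Zr (pol a m') (Set.Icc (-r) r) (T - 2)} ∩ {a | Cr a m' 1 u}ᶜ with hA1
  have hA1m : MeasurableSet A1 := ((hM m').1 (-r) r (T - 2)).inter ((hM m').2.2.1 1 u).compl
  have hcongr : ∀ a b : ℕ → ℝ, (∀ k < m', a k = b k) → (a ∈ A1 ↔ b ∈ A1) := by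
    intro a b hab
    have h1 := pol_congr hab
    have h2 : Zr (pol a m') (Set.Icc (-r) r) (T - 2) ↔ Zr (pol b m') (Set.Icc (-r) r) (T - 2) := by
      rw [h1]
    have h3 : Cr a m' 1 u ↔ Cr b m' 1 u := by unfold Cr; rw [h1]
    show (_ ∧ ¬ Cr a m' 1 u) ↔ (_ ∧ ¬ Cr b m' 1 u)
    exact and_congr h2 (not_congr h3)
  have hA1d : DependsOn (fun a => a ∈ A1) {k | k < m'} := by
    intro a b hab
    exact propext (hcongr a b fun k hk => hab k hk)
  set A2 : Set (ℕ → ℝ) := {a | rv a m ∈ A1} with hA2
  have hA2m : MeasurableSet A2 := (hM m).2.2.2 hA1m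
  have hA2d : DependsOn (fun a => a ∈ A2) {k | m' ≤ k} := by
    intro a b hab
    apply propext
    show rv a m ∈ A1 ↔ rv b m ∈ A1
    apply hcongr
    intro k hk
    unfold rv
    apply hab
    show m' ≤ m - 1 - k
    omega
  have hA2e : ga A2 = ga A1 := by
    have h1 := hI (fun k => m - 1 - k) {k | k < m'} (by
      intro i hi j hj hij
      have hi' : i < m' := hi
      have hj' : j < m' := hj
      simp only at hij
      omega) A1 hA1m hA1d
    exact h1
  have hind : ga (A1 ∩ A2) = ga A1 * ga A2 := by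
    have h1 := hN 2 (fun i => if i = 0 then A1 else A2) (fun i => if i = 0 then {k | k < m'} else
      {k | m' ≤ k}) (by
        intro i hi
        by_cases h0 : i = 0
        · simp only [h0, if_true]; exact ⟨hA1m, hA1d⟩
        · simp only [h0, if_false]; exact ⟨hA2m, hA2d⟩) (by
        intro i hi j hj hij
        have hd : Disjoint {k | k < m'} {k | m' ≤ k} := by
          rw [Set.disjoint_left]
          intro k hk hk2
          have hk' : k < m' := hk
          have hk2' : m' ≤ k := hk2
          omega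
        by_cases h0 : i = 0
        · have hj0 : j ≠ 0 := fun h => hij (h0.trans h.symm)
          simp only [h0, hj0, if_true, if_false]; exact hd
        · have hj0 : j = 0 := by omega
          simp only [h0, hj0, if_true, if_false]; exact hd.symm)
    have e1 : (⋂ i ∈ range 2, (fun i => if i = 0 then A1 else A2) i) = A1 ∩ A2 := by
      ext a
      simp only [Set.mem_iInter, mem_range, Set.mem_inter_iff]
      constructor
      · intro h
        exact ⟨by simpa using h 0 (by norm_num), by simpa using h 1 (by norm_num)⟩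
      · rintro ⟨h2, h3⟩ i hi
        by_cases h0 : i = 0
        · simp only [h0, if_true]; exact h2
        · simp only [h0, if_false]; exact h3
    rw [e1, prod_range_succ, prod_range_one] at h1
    simpa using h1
  -- typical growth
  set G : Set (ℕ → ℝ) := {a | ∀ k : ℕ, |a k| ≤ (q : ℝ) * ((k : ℝ) + 1)} with hG
  set G' : Set (ℕ → ℝ) := {a | ∀ k : ℕ, |a (m - 1 - k)| ≤ (q : ℝ) * ((k : ℝ) + 1)} with hG'
  have hGm : ga Gᶜ ≤ ENNReal.ofReal (zz / (q : ℝ) ^ 2) := grow id (by omega)
  have hGm' : ga G'ᶜ ≤ ENNReal.ofReal (zz / (q : ℝ) ^ 2) := grow (fun k => m - 1 - k) (by omega)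
  -- step 1
  have step1 : {a | Zr (pol a n) (Set.Icc (-r) r) T} ⊆
      A1 ∪ Gᶜ ∪ {a | Cr a n 1 u} ∪ {a | Cr a m' 1 u} := by
    intro a ha
    by_cases h1 : Cr a m' 1 u
    · right; exact h1
    by_cases h2 : Cr a n 1 u
    · left; right; exact h2
    by_cases h3 : a ∈ G
    · left; left; left
      refine ⟨?_, h1⟩
      refine stab hT (f := pol a n) (h := pol a m') (r := r) (u := u) r0 r1 (pol_contDiff a n)
        (pol_cont a m') (not_cr h2) ?_ ha
      intro x hx
      rw [abs_sub_comm]
      exact hQ q hqQ a h3 n hm'n x hx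
    · left; left; right; exact h3
  -- step 2
  have step2 : A1 ∩ A2 ⊆ {a | η / 16 * Real.log m < |(NR a m : ℝ) - 2 / Real.pi * Real.log m|} ∪
      Gᶜ ∪ G'ᶜ := by
    rintro a ⟨ha1, ha2⟩
    by_cases h1 : a ∈ G
    · by_cases h2 : a ∈ G'
      · left; left
        have hmm : q ^ 16 ≤ m := by omega
        have z1 : Zr (pol a m) (Set.Icc (-r) r) (T - 2 - 2) :=
          stab hT (f := pol a m') (h := pol a m) r0 r1 (pol_contDiff a m') (pol_cont a m)
            (not_cr ha1.2) (fun x hx => hQ q hqQ a h1 m hmm x hx) ha1.1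
        have ha2' : rv a m ∈ A1 := ha2
        have z2 : Zr (pol (rv a m) m) (Set.Icc (-r) r) (T - 2 - 2) :=
          stab hT (f := pol (rv a m) m') (h := pol (rv a m) m) r0 r1 (pol_contDiff _ m')
            (pol_cont _ m) (not_cr ha2'.2) (fun x hx => hQ q hqQ (rv a m) h2 m hmm x hx) ha2'.1
        have z3 := combine r0 r1 z1 z2
        have hne : ∃ i < m, a i ≠ 0 := by
          by_contra hcon
          push Not at hcon
          have h5 : pol a m' = fun _ => 0 := by
            funext x
            unfold pol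
            exact sum_eq_zero fun k hk => by
              rw [hcon k (by have := mem_range.1 hk; omega), zero_mul]
          have h6 : Cr a m' 1 u := by
            refine ⟨0, by norm_num, by norm_num, ?_, ?_⟩
            · rw [h5]; simp
            · rw [h5]; simp [hu0.le]
          exact ha1.2 h6
        have h7 := (hR a m (T - 2 - 2 + (T - 2 - 2 - 1))).1 hne z3
        have h8 : 2 * (T : ℝ) - 9 ≤ (NR a m : ℝ) := by
          have h9 : (2 * T : ℕ) ≤ NR a m + 9 := by omega
          have h10 : ((2 * T : ℕ) : ℝ) ≤ ((NR a m + 9 : ℕ) : ℝ) := by exact_mod_cast h9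
          push_cast at h10
          linarith
        have hlog : Real.log m = Real.log 2 + 16 * Real.log q := by
          rw [hm, hm']
          push_cast
          rw [Real.log_mul (by norm_num) (by positivity), Real.log_pow]
          push_cast
          ring
        show η / 16 * Real.log m < |(NR a m : ℝ) - 2 / Real.pi * Real.log m|
        refine lt_of_lt_of_le ?_ (le_abs_self _)
        rw [hlog]
        have h11 : 2 * ((16 / Real.pi + η) * Real.log q) ≤ 2 * (T : ℝ) := by linarith
        have h12 : 2 * ((16 / Real.pi + η) * Real.log q) =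
            2 / Real.pi * (16 * Real.log q) + 2 * (η * Real.log q) := by ring
        have h13 : η / 16 * (Real.log 2 + 16 * Real.log q) =
            η / 16 * Real.log 2 + η * Real.log q := by ring
        have h14 : 2 / Real.pi * (Real.log 2 + 16 * Real.log q) =
            2 / Real.pi * Real.log 2 + 2 / Real.pi * (16 * Real.log q) := by ring
        have h15 : (2 / Real.pi + η / 16) * Real.log 2 =
            2 / Real.pi * Real.log 2 + η / 16 * Real.log 2 := by ring
        rw [h13, h14]
        rw [h15] at b3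
        linarith
      · right; exact h2
    · left; right; exact h1
  have hmn0 : n0 ≤ m := by omega
  have hp2 : ga A1 * ga A1 ≤ ENNReal.ofReal (ε ^ 2 / 4) := by
    calc ga A1 * ga A1 = ga (A1 ∩ A2) := by rw [hind, hA2e]
      _ ≤ ga {a | η / 16 * Real.log m < |(NR a m : ℝ) - 2 / Real.pi * Real.log m|} +
          ga Gᶜ + ga G'ᶜ := by
          refine (measure_mono step2).trans ((measure_union_le _ _).trans ?_)
          gcongr
          exact measure_union_le _ _
      _ ≤ ENNReal.ofReal (ε ^ 2 / 8) + ENNReal.ofReal (ε ^ 2 / 32) +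
          ENNReal.ofReal (ε ^ 2 / 32) := by
          gcongr
          · exact hn0 m hmn0
          · exact hGm.trans (ENNReal.ofReal_le_ofReal b1b.le)
          · exact hGm'.trans (ENNReal.ofReal_le_ofReal b1b.le)
      _ ≤ ENNReal.ofReal (ε ^ 2 / 4) := by
          rw [← ENNReal.ofReal_add (by positivity) (by positivity),
            ← ENNReal.ofReal_add (by positivity) (by positivity)]
          apply ENNReal.ofReal_le_ofReal
          nlinarith [sq_nonneg ε]
  have hp1 : ga A1 ≤ ENNReal.ofReal (ε / 2) := by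
    have hfin : ga A1 ≠ ⊤ := measure_ne_top _ _
    set p := (ga A1).toReal with hp
    have hp' : ga A1 = ENNReal.ofReal p := (ENNReal.ofReal_toReal hfin).symm
    have hp0 : 0 ≤ p := ENNReal.toReal_nonneg
    rw [hp', ← ENNReal.ofReal_mul hp0, ENNReal.ofReal_le_ofReal_iff (by positivity)] at hp2
    rw [hp']
    apply ENNReal.ofReal_le_ofReal
    by_contra hcon
    push Not at hcon
    nlinarith
  calc ga {a | Zr (pol a n) (Set.Icc (-r) r) T}
      ≤ ga A1 + ga Gᶜ + ga {a | Cr a n 1 u} + ga {a | Cr a m' 1 u} := by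
        refine (measure_mono step1).trans ((measure_union_le _ _).trans ?_)
        gcongr
        refine (measure_union_le _ _).trans ?_
        gcongr
        exact measure_union_le _ _
    _ ≤ ENNReal.ofReal (ε / 2) + ENNReal.ofReal (ε / 8) + ENNReal.ofReal (ε / 8) +
        ENNReal.ofReal (ε / 8) := by
        gcongr
        · exact hGm.trans (ENNReal.ofReal_le_ofReal b1a.le)
        · exact hCV n (by omega)
        · exact hCV m' hm'2
    _ ≤ ENNReal.ofReal ε := by
        rw [← ENNReal.ofReal_add (by positivity) (by positivity),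
          ← ENNReal.ofReal_add (by positivity) (by positivity),
          ← ENNReal.ofReal_add (by positivity) (by positivity)]
        apply ENNReal.ofReal_le_ofReal
        linarith

end Pool.Agent.W135.KZ
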