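import Pool.Agent.W325.KZ.Defs

/-! Project KZ, part TYP: preparations. -/

set_option autoImplicit false

open Finset MeasureTheory ProbabilityTheory Filter Topology
open Pool.Agent.W325.KZ

namespace Pool.Agent.W135.KZ

/-- the sum `∑ 1/(k+1)²` -/
noncomputable def zz : ℝ := ∑' k : ℕ, 1 / ((k : ℝ) + 1) ^ 2

theorem zz_summable : Summable (fun k : ℕ => 1 / ((k : ℝ) + 1) ^ 2) := by
  have h := (Real.summable_one_div_nat_pow (p := 2)).2 (by norm_num)
  have h2 := (summable_nat_add_iff 1).2 h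
  refine h2.congr fun k => ?_
  push_cast
  rfl

theorem zz_nonneg : 0 ≤ zz := tsum_nonneg fun k => by positivity

theorem cheb (i : ℕ) {t : ℝ} (ht : 0 < t) :
    ga {a | t < |a i|} ≤ ENNReal.ofReal (1 / t ^ 2) := by
  have h1 : MeasurePreserving (fun a : ℕ → ℝ => a i) ga (gaussianReal 0 1) := by
    unfold ga
    exact measurePreserving_eval_infinitePi (fun _ : ℕ => gaussianReal 0 1) i
  have h2 : ga {a | t < |a i|} ≤ ga ((fun a : ℕ → ℝ => a i) ⁻¹' {x : ℝ | t ≤ |x|}) := by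
    apply measure_mono
    intro a ha
    have ha' : t < |a i| := ha
    exact ha'.le
  have hm : MeasurableSet {x : ℝ | t ≤ |x|} := measurableSet_le measurable_const measurable_norm
  rw [h1.measure_preimage hm.nullMeasurableSet] at h2
  refine h2.trans ?_
  have h3 := meas_ge_le_variance_div_sq (μ := gaussianReal 0 1) (X := id)
    (memLp_id_gaussianReal 2) ht
  simp only [id, integral_id_gaussianReal, sub_zero] at h3
  have h4 : Var[fun x ↦ x; gaussianReal 0 1] = 1 := by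
    rw [variance_fun_id_gaussianReal]; simp
  have h5 : variance (fun a : ℝ => a) (gaussianReal 0 1) = 1 := h4
  refine h3.trans (le_of_eq ?_)
  have h6 : variance (fun a : ℝ => a) (gaussianReal 0 1) / t ^ 2 = 1 / t ^ 2 := by rw [h5]
  exact congrArg ENNReal.ofReal h6

/-- a typical sequence grows slowly -/
theorem grow (σ : ℕ → ℕ) {q : ℕ} (hq : 0 < q) :
    ga {a | ¬ ∀ k : ℕ, |a (σ k)| ≤ (q : ℝ) * ((k : ℝ) + 1)} ≤
      ENNReal.ofReal (zz / (q : ℝ) ^ 2) := by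
  have hq' : (0 : ℝ) < q := by exact_mod_cast hq
  have h1 : {a : ℕ → ℝ | ¬ ∀ k : ℕ, |a (σ k)| ≤ (q : ℝ) * ((k : ℝ) + 1)} =
      ⋃ k : ℕ, {a | (q : ℝ) * ((k : ℝ) + 1) < |a (σ k)|} := by
    ext a
    simp only [Set.mem_ofPred_eq, Set.mem_iUnion, not_forall, not_le]
  rw [h1]
  refine (measure_iUnion_le _).trans ?_
  have h2 : ∀ k : ℕ, ga {a | (q : ℝ) * ((k : ℝ) + 1) < |a (σ k)|} ≤
      ENNReal.ofReal ((1 / ((k : ℝ) + 1) ^ 2) / (q : ℝ) ^ 2) := by
    intro k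
    refine (cheb (σ k) (by positivity)).trans (le_of_eq ?_)
    congr 1
    rw [mul_pow]
    field_simp
  refine (ENNReal.tsum_le_tsum h2).trans (le_of_eq ?_)
  rw [← ENNReal.ofReal_tsum_of_nonneg (fun k => by positivity) (zz_summable.div_const _),
    tsum_div_const]
  rfl

theorem rr_facts {q : ℕ} (hq : 2 ≤ q) : 0 < rr q ∧ rr q < 1 ∧ 1 - rr q = 1 / (q : ℝ) ^ 12 := by
  have hq' : (2 : ℝ) ≤ q := by exact_mod_cast hq
  have h1 : (1 : ℝ) < (q : ℝ) ^ 12 := one_lt_pow₀ (by linarith) (by norm_num)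
  have h2 : 1 / (q : ℝ) ^ 12 < 1 := by rw [div_lt_one (by linarith)]; exact h1
  have h3 : 0 < 1 / (q : ℝ) ^ 12 := by positivity
  unfold rr
  exact ⟨by linarith, by linarith, by ring⟩

theorem geo_sum {r : ℝ} (h0 : 0 ≤ r) (h1 : r < 1) (M : ℝ) (hM : 0 ≤ M) (n : ℕ) :
    ∑ l ∈ range n, (M + ((l : ℝ) + 1)) * r ^ l ≤ M * (1 - r)⁻¹ + ((1 - r)⁻¹) ^ 2 := by
  have hs1 := hasSum_geometric_of_lt_one h0 h1
  have hs2 := hasSum_coe_mul_geometric_of_norm_lt_one (𝕜 := ℝ) (r := r)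
    (by rw [Real.norm_of_nonneg h0]; exact h1)
  have hs3 : HasSum (fun l : ℕ => (M + ((l : ℝ) + 1)) * r ^ l)
      (M * (1 - r)⁻¹ + (r / (1 - r) ^ 2 + (1 - r)⁻¹)) := by
    have := (hs1.mul_left M).add (hs2.add hs1)
    refine this.congr_fun ?_ |> fun h => h
    intro l
    ring
  have h2 := sum_le_hasSum (range n) (fun l _ => by positivity) hs3
  refine h2.trans (le_of_eq ?_)
  have h3 : (1 - r) ≠ 0 := by linarith
  field_simp
  ring

/-- the tail of a typical polynomial is small on `[-r, r]` -/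
theorem tail : ∃ Q : ℕ, 2 ≤ Q ∧ ∀ q, Q ≤ q → ∀ b : ℕ → ℝ,
    (∀ k : ℕ, |b k| ≤ (q : ℝ) * ((k : ℝ) + 1)) → ∀ N, q ^ 16 ≤ N → ∀ x : ℝ, |x| ≤ rr q →
      |pol b N x - pol b (q ^ 16) x| < 1 / (q : ℝ) := by
  have hlim := Real.tendsto_pow_mul_exp_neg_atTop_nhds_zero 30
  have hev : ∀ᶠ x : ℝ in atTop, x ^ 30 * Real.exp (-x) < 1 / 2 :=
    hlim.eventually_lt_const (by norm_num)
  obtain ⟨Q0, hQ0⟩ := (tendsto_natCast_atTop_atTop.eventually hev).exists_forall_of_atTop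
  refine ⟨max Q0 2, le_max_right _ _, ?_⟩
  intro q hq b hb N hN x hx
  have hq2 : 2 ≤ q := (le_max_right _ _).trans hq
  have hq0 : Q0 ≤ q := (le_max_left _ _).trans hq
  have hqR : (2 : ℝ) ≤ q := by exact_mod_cast hq2
  obtain ⟨r0, r1, hr⟩ := rr_facts hq2
  set r := rr q with hrdef
  set m := q ^ 16 with hm
  have e1 : pol b N x - pol b m x = ∑ k ∈ Ico m N, b k * x ^ k := by
    unfold pol
    rw [sum_Ico_eq_sub _ hN]
  rw [e1, sum_Ico_eq_sum_range]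
  have h1 : ∀ l ∈ range (N - m), |b (m + l) * x ^ (m + l)| ≤
      (q * r ^ m) * (((m : ℝ) + ((l : ℝ) + 1)) * r ^ l) := by
    intro l _
    rw [abs_mul, abs_pow]
    have h2 := hb (m + l)
    have h3 : |x| ^ (m + l) ≤ r ^ (m + l) := pow_le_pow_left₀ (abs_nonneg _) hx _
    calc |b (m + l)| * |x| ^ (m + l) ≤ (q * (((m + l : ℕ) : ℝ) + 1)) * r ^ (m + l) :=
          mul_le_mul h2 h3 (by positivity) (by positivity)
      _ = _ := by push_cast; rw [pow_add]; ring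
  have h2 : |∑ l ∈ range (N - m), b (m + l) * x ^ (m + l)| ≤
      (q * r ^ m) * ((m : ℝ) * (1 - r)⁻¹ + ((1 - r)⁻¹) ^ 2) := by
    refine (abs_sum_le_sum_abs _ _).trans ((sum_le_sum h1).trans ?_)
    rw [← mul_sum]
    exact mul_le_mul_of_nonneg_left (geo_sum r0.le r1 m (by positivity) _) (by positivity)
  refine h2.trans_lt ?_
  rw [hr]
  have h3 : r ^ m ≤ Real.exp (-(q : ℝ) ^ 4) := by
    have h4 : r ≤ Real.exp (-(1 / (q : ℝ) ^ 12)) := by
      have := Real.one_sub_le_exp_neg (1 / (q : ℝ) ^ 12)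
      linarith
    calc r ^ m ≤ Real.exp (-(1 / (q : ℝ) ^ 12)) ^ m := pow_le_pow_left₀ r0.le h4 m
      _ = Real.exp (-(q : ℝ) ^ 4) := by
          rw [← Real.exp_nat_mul, hm]
          congr 1
          push_cast
          field_simp
  have h5 : Real.exp (-(q : ℝ) ^ 4) ≤ Real.exp (-(q : ℝ)) := by
    apply Real.exp_le_exp.2
    have : (q : ℝ) ^ 1 ≤ (q : ℝ) ^ 4 := pow_le_pow_right₀ (by linarith) (by norm_num)
    rw [pow_one] at this
    linarith
  have h6 := hQ0 q hq0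
  have h7 : (m : ℝ) * (1 / (q : ℝ) ^ 12)⁻¹ + ((1 / (q : ℝ) ^ 12)⁻¹) ^ 2 ≤ 2 * (q : ℝ) ^ 28 := by
    rw [one_div, inv_inv, hm]
    push_cast
    have : (q : ℝ) ^ 24 ≤ (q : ℝ) ^ 28 := pow_le_pow_right₀ (by linarith) (by norm_num)
    have e1 : (q : ℝ) ^ 16 * (q : ℝ) ^ 12 = (q : ℝ) ^ 28 := by rw [← pow_add]
    have e2 : ((q : ℝ) ^ 12) ^ 2 = (q : ℝ) ^ 24 := by rw [← pow_mul]
    rw [e1, e2]
    linarith
  have hq0' : (0 : ℝ) < q := by linarith
  calc (q * r ^ m) * ((m : ℝ) * (1 / (q : ℝ) ^ 12)⁻¹ + ((1 / (q : ℝ) ^ 12)⁻¹) ^ 2)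
      ≤ (q * Real.exp (-(q : ℝ))) * (2 * (q : ℝ) ^ 28) := by
        apply mul_le_mul _ h7 (by positivity) (by positivity)
        exact mul_le_mul_of_nonneg_left (h3.trans h5) hq0'.le
    _ = 2 * ((q : ℝ) ^ 30 * Real.exp (-(q : ℝ))) / q := by
        field_simp
    _ < 1 / q := by
        apply div_lt_div_of_pos_right _ hq0'
        linarith

/-- `pol (rv a m) m y = y ^ (m - 1) * pol a m (1 / y)` -/
theorem pol_rv (a : ℕ → ℝ) (m : ℕ) (y : ℝ) (hy : y ≠ 0) :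
    pol (rv a m) m y = y ^ (m - 1) * pol a m y⁻¹ := by
  unfold pol rv
  rw [mul_sum, ← sum_range_reflect]
  refine sum_congr rfl fun k hk => ?_
  have hk' := mem_range.1 hk
  have e1 : m - 1 - (m - 1 - k) = k := by omega
  rw [e1]
  have e2 : y ^ (m - 1) = y ^ (m - 1 - k) * y ^ k := by
    rw [← pow_add]; congr 1; omega
  rw [e2, inv_pow]
  field_simp

theorem pol_congr {a b : ℕ → ℝ} {m : ℕ} (h : ∀ k < m, a k = b k) : pol a m = pol b m := by
  funext x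
  unfold pol
  exact sum_congr rfl fun k hk => by rw [h k (mem_range.1 hk)]

theorem pol_contDiff (a : ℕ → ℝ) (m : ℕ) : ContDiff ℝ 1 (pol a m) := by
  unfold pol
  fun_prop

end Pool.Agent.W135.KZ
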